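import Pool.Agent.R39.ST.Gad

/-!
Contracting an edge of a connected graph can increase the mean subtree order.
-/

namespace Pool.Agent.Results.MP_e83d06_co.ContractionIncreasesMean

open Finset

/-- `s_k(G)`: the number of subtrees of `G` (subgraphs of `G` that are trees) with exactly
`k` vertices. -/
noncomputable def numSubtrees {V : Type} (G : SimpleGraph V) (k : ℕ) : ℕ :=
  Set.ncard {H : G.Subgraph | H.coe.IsTree ∧ H.verts.ncard = k}

/-- `μ(G)`: the mean subtree order of `G`. -/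
noncomputable def meanSubtreeOrder {V : Type} [Fintype V] (G : SimpleGraph V) : ℝ :=
  (∑ k ∈ Icc 1 (Fintype.card V), (k : ℝ) * (numSubtrees G k : ℝ)) /
    (∑ k ∈ Icc 1 (Fintype.card V), (numSubtrees G k : ℝ))

/-- `G / uv`: the vertex `v` is removed and the vertex `u` becomes adjacent to every vertex
(other than itself) that was adjacent to `u` or to `v`. -/
def contract {V : Type} (G : SimpleGraph V) (u v : V) : SimpleGraph {w : V // w ≠ v} where
  Adj a b := a ≠ b ∧
    (G.Adj a.1 b.1 ∨ (a.1 = u ∧ G.Adj v b.1) ∨ (b.1 = u ∧ G.Adj v a.1))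
  symm := ⟨fun _ _ h => ⟨h.1.symm, h.2.elim (fun h' => Or.inl h'.symm)
    (fun h' => Or.inr (h'.elim Or.inr Or.inl))⟩⟩
  loopless := ⟨fun _ h => h.1 rfl⟩

lemma nadj_last {c h l b : ℕ} (hb : b < c + 2 * l)
    (hn : Pool.Agent.R39.ST.nadj c h l (c + 2 * l) b) : b = 0 := by
  unfold Pool.Agent.R39.ST.nadj Pool.Agent.R39.ST.att at hn
  split_ifs at hn <;> omega

/-- contracting the edge at the last pendant vertex of the necklace -/
def contractNeck (c h l : ℕ) (hc : 0 < c) :
    contract (Pool.Agent.R39.ST.neck c h l 1) ⟨0, by omega⟩ ⟨c + 2 * l, by omega⟩ ≃g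
      Pool.Agent.R39.ST.neck c h l 0 where
  toFun w := ⟨w.1.val, by
    have h1 := w.1.isLt
    have h2 : w.1.val ≠ c + 2 * l := fun h => w.2 (Fin.ext h)
    omega⟩
  invFun w := ⟨⟨w.val, by have := w.isLt; omega⟩, by
    intro h
    have h1 := w.isLt
    have h2 := congrArg Fin.val h
    simp only at h2
    omega⟩
  left_inv w := by simp
  right_inv w := by simp
  map_rel_iff' := by
    rintro ⟨a, ha⟩ ⟨b, hb⟩
    have ha1 : a.val ≠ c + 2 * l := fun h => ha (Fin.ext h)
    have hb1 : b.val ≠ c + 2 * l := fun h => hb (Fin.ext h)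
    have ha2 := a.isLt
    have hb2 := b.isLt
    simp only [Equiv.coe_fn_mk, contract, Pool.Agent.R39.ST.neck_adj, Ne, Subtype.mk.injEq,
      Fin.ext_iff]
    constructor
    · rintro ⟨h1, h2⟩
      exact ⟨h1, Or.inl ⟨h1, h2⟩⟩
    · rintro ⟨h1, h2 | ⟨h2, h3⟩ | ⟨h2, h3⟩⟩
      · exact h2
      · have := nadj_last (by omega) h3.2
        omega
      · have := nadj_last (by omega) h3.2
        omega

/-- There is a connected graph `G` with an edge `uv` such that contracting `uv` increases the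
mean subtree order; in particular `μ(G) - μ(G/e) < 0 < 1/3`. -/
theorem result : ∃ (n : ℕ) (G : SimpleGraph (Fin n)) (u v : Fin n),
    G.Connected ∧ G.Adj u v ∧ meanSubtreeOrder G - meanSubtreeOrder (contract G u v) < 0 := by
  refine ⟨182 + 2 * 12 + 1, Pool.Agent.R39.ST.neck 182 23 12 1, ⟨0, by norm_num⟩,
    ⟨182 + 2 * 12, by norm_num⟩,
    Pool.Agent.R39.ST.neck_connected (by norm_num) (by norm_num) (by norm_num), ?_, ?_⟩
  · rw [Pool.Agent.R39.ST.neck_adj, Pool.Agent.R39.ST.nadj, Pool.Agent.R39.ST.att,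
      Pool.Agent.R39.ST.att]
    norm_num
  · have e : contract (Pool.Agent.R39.ST.neck 182 23 12 1) ⟨0, by norm_num⟩
        ⟨182 + 2 * 12, by norm_num⟩ ≃g Pool.Agent.R39.ST.neck 182 23 12 0 :=
      contractNeck 182 23 12 (by norm_num)
    have hcard : Fintype.card {w : Fin (182 + 2 * 12 + 1) //
        w ≠ (⟨182 + 2 * 12, by norm_num⟩ : Fin (182 + 2 * 12 + 1))} =
        Fintype.card (Fin (182 + 2 * 12 + 0)) := Fintype.card_congr e.toEquiv
    have h1 : meanSubtreeOrder (contract (Pool.Agent.R39.ST.neck 182 23 12 1)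
        ⟨0, by norm_num⟩ ⟨182 + 2 * 12, by norm_num⟩) =
        meanSubtreeOrder (Pool.Agent.R39.ST.neck 182 23 12 0) := by
      unfold meanSubtreeOrder
      rw [hcard]
      have h2 : ∀ k, numSubtrees (contract (Pool.Agent.R39.ST.neck 182 23 12 1)
          ⟨0, by norm_num⟩ ⟨182 + 2 * 12, by norm_num⟩) k =
          numSubtrees (Pool.Agent.R39.ST.neck 182 23 12 0) k :=
        fun k => Pool.Agent.R39.ST.sk_iso e k
      simp only [h2]
    rw [h1]
    have hs : ∀ {V : Type} [Fintype V] (G : SimpleGraph V), meanSubtreeOrder G =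
        ((Pool.Agent.R39.ST.P (MonoidWithZeroHom.id ℕ) G univ
          (fun _ => Pool.Agent.R39.ST.Du.x)).b : ℝ) /
        ((Pool.Agent.R39.ST.P (MonoidWithZeroHom.id ℕ) G univ
          (fun _ => Pool.Agent.R39.ST.Du.x)).a : ℝ) := by
      intro V _ G
      unfold meanSubtreeOrder
      rw [← Pool.Agent.R39.ST.count_a, ← Pool.Agent.R39.ST.count_b]
      rfl
    rw [hs, hs, Pool.Agent.R39.ST.neck1 (by norm_num) (by norm_num) (by norm_num),
      Pool.Agent.R39.ST.neck0 (by norm_num) (by norm_num) (by norm_num)]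
    simp only [MonoidWithZeroHom.id_apply]
    have hp1 : 0 < (Pool.Agent.R39.ST.neckN 182 23 12 (2, 1) (1, 1) 182).1 := by
      decide +kernel
    have hp0 : 0 < (Pool.Agent.R39.ST.neckN 182 23 12 (1, 0) (0, 0) 182).1 := by
      decide +kernel
    have hlt : (Pool.Agent.R39.ST.neckN 182 23 12 (2, 1) (1, 1) 182).2 *
        (Pool.Agent.R39.ST.neckN 182 23 12 (1, 0) (0, 0) 182).1 <
        (Pool.Agent.R39.ST.neckN 182 23 12 (1, 0) (0, 0) 182).2 *
        (Pool.Agent.R39.ST.neckN 182 23 12 (2, 1) (1, 1) 182).1 := by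
      decide +kernel
    rw [sub_neg, div_lt_div_iff₀ (by exact_mod_cast hp1) (by exact_mod_cast hp0)]
    exact_mod_cast hlt

end Pool.Agent.Results.MP_e83d06_co.ContractionIncreasesMean
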